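import Pool.Agent.W889.SR.Stm

set_option autoImplicit false

namespace Pool.Agent.W654.SR

open Pool.Agent.W889.SR Set Ordinal

/-- general form of the splitting: `P` a relation definable without quantifiers -/
theorem split_gen (P : ∀ A : Type, (A → A → Prop) → A → A → Prop)
    (hP : ∀ (A B : Type) (r : A → A → Prop) (s : B → B → Prop) (ι : Type) (a : ι → A)
      (b : ι → B), SameQf r a s b → ∀ i j, P A r (a i) (a j) ↔ P B s (b i) (b j))
    (β : Ordinal.{0}) : ∀ (A B : Type) (r : A → A → Prop) (s : B → B → Prop)
    (ι : Type) (a : ι → A) (b : ι → B) (i₀ : ι), BF β r univ a s univ b →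
    ∀ (κ : Type) (u : κ → ι), (∀ j, P A r (a i₀) (a (u j))) →
      BF β r {x | P A r (a i₀) x} (fun o : Option κ => o.elim (a i₀) (a ∘ u)) s
        {y | P B s (b i₀) y} (fun o => o.elim (b i₀) (b ∘ u)) := by
  induction β using Ordinal.induction with
  | h β ih =>
    intro A B r s ι a b i₀ h κ u hu
    rw [BF_iff] at h ⊢
    constructor
    · have := h.1.reindex (fun o : Option κ => o.elim i₀ u)
      have e1 : a ∘ (fun o : Option κ => o.elim i₀ u) =
          (fun o : Option κ => o.elim (a i₀) (a ∘ u)) := by
        funext o; cases o <;> rfl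
      have e2 : b ∘ (fun o : Option κ => o.elim i₀ u) =
          (fun o : Option κ => o.elim (b i₀) (b ∘ u)) := by
        funext o; cases o <;> rfl
      rwa [e1, e2] at this
    · intro γ hγ k d hd
      obtain ⟨c, -, hc⟩ := h.2 γ hγ k d (fun _ => mem_univ _)
      refine ⟨c, fun j => ?_, ?_⟩
      · have := hP _ _ s r _ _ _ hc.sameQf (Sum.inl i₀) (Sum.inr j)
        exact this.1 (hd j)
      · have key := ih γ hγ B A s r (ι ⊕ Fin k) (Sum.elim b d) (Sum.elim a c) (Sum.inl i₀) hc
          (κ ⊕ Fin k) (Sum.map u id) (by
            rintro (j | j)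
            · exact (hP _ _ r s _ _ _ h.1 i₀ (u j)).1 (hu j)
            · exact hd j)
        have key2 := key.reindex (fun x : Option κ ⊕ Fin k =>
          Sum.elim (fun o : Option κ => o.elim none (fun j => some (Sum.inl j)))
            (fun i => some (Sum.inr i)) x)
        have e1 : (fun o : Option (κ ⊕ Fin k) => o.elim (Sum.elim b d (Sum.inl i₀))
            (Sum.elim b d ∘ Sum.map u id)) ∘ (fun x : Option κ ⊕ Fin k =>
          Sum.elim (fun o : Option κ => o.elim none (fun j => some (Sum.inl j)))
            (fun i => some (Sum.inr i)) x) =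
            Sum.elim (fun o : Option κ => o.elim (b i₀) (b ∘ u)) d := by
          funext x
          rcases x with (_ | j) | i <;> rfl
        have e2 : (fun o : Option (κ ⊕ Fin k) => o.elim (Sum.elim a c (Sum.inl i₀))
            (Sum.elim a c ∘ Sum.map u id)) ∘ (fun x : Option κ ⊕ Fin k =>
          Sum.elim (fun o : Option κ => o.elim none (fun j => some (Sum.inl j)))
            (fun i => some (Sum.inr i)) x) =
            Sum.elim (fun o : Option κ => o.elim (a i₀) (a ∘ u)) c := by
          funext x
          rcases x with (_ | j) | i <;> rfl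
        rw [e1, e2] at key2
        exact key2

theorem fvsplit : FVsplit := by
  intro A B r s β ι a b i₀ h
  refine ⟨fun κ u hu => ?_, fun κ u hu => ?_⟩
  · exact split_gen (fun A r e x => r e x) (fun A B r s ι a b h i j => h.1 i j) β A B r s ι a b i₀
      h κ u hu
  · exact split_gen (fun A r e x => r e x → x = e)
      (fun A B r s ι a b h i j => by rw [h.1 i j, h.2 j i]) β A B r s ι a b i₀ h κ u hu

theorem mix1 {A : Type} {r : A → A → Prop} (hr : IsForest r) {e x y : A} (hx : r e x)
    (hy : r e y → y = e) : r x y ↔ (x = e ∧ y = e) := by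
  constructor
  · intro h
    have h1 := hy (hr.trans _ _ _ hx h)
    exact ⟨hr.antisymm _ _ (h1 ▸ h) hx, h1⟩
  · rintro ⟨rfl, rfl⟩
    exact hr.refl _

theorem mix2 {A : Type} {r : A → A → Prop} (hr : IsForest r) {e x y : A} (hx : r e x)
    (hy : r e y → y = e) : r y x ↔ r y e := by
  constructor
  · intro h
    rcases hr.chain x e y hx h with h1 | h1
    · rw [hy h1]; exact hr.refl _
    · exact h1
  · intro h
    exact hr.trans _ _ _ h hx

theorem mix3 {A : Type} {r : A → A → Prop} {e x y : A} (hx : r e x)
    (hy : r e y → y = e) : x = y ↔ (x = e ∧ y = e) := by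
  constructor
  · rintro rfl
    exact ⟨hy hx, hy hx⟩
  · rintro ⟨rfl, rfl⟩
    rfl

theorem fvcomb : FVcomb := by
  classical
  intro A B r s hr hs β
  induction β using Ordinal.induction generalizing A B with
  | h β ih =>
    intro e v ι κ a₁ b₁ a₂ b₂ ha₁ hb₁ ha₂ hb₂ h1 h2
    have q1 := h1.sameQf
    have q2 := h2.sameQf
    rw [BF_iff]
    refine ⟨⟨?_, ?_⟩, ?_⟩
    · rintro (i | i) (j | j)
      · exact q1.1 (some i) (some j)
      · have f1 : a₁ i = e ↔ b₁ i = v := q1.2 (some i) none
        have f2 : a₂ j = e ↔ b₂ j = v := q2.2 (some j) none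
        simp only [Sum.elim_inl, Sum.elim_inr]
        rw [mix1 hr (ha₁ i) (ha₂ j), mix1 hs (hb₁ i) (hb₂ j), f1, f2]
      · have f1 : r (a₂ i) e ↔ s (b₂ i) v := q2.1 (some i) none
        simp only [Sum.elim_inl, Sum.elim_inr]
        rw [mix2 hr (ha₁ j) (ha₂ i), mix2 hs (hb₁ j) (hb₂ i), f1]
      · exact q2.1 (some i) (some j)
    · rintro (i | i) (j | j)
      · exact q1.2 (some i) (some j)
      · have f1 : a₁ i = e ↔ b₁ i = v := q1.2 (some i) none
        have f2 : a₂ j = e ↔ b₂ j = v := q2.2 (some j) none
        simp only [Sum.elim_inl, Sum.elim_inr]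
        rw [mix3 (ha₁ i) (ha₂ j), mix3 (hb₁ i) (hb₂ j), f1, f2]
      · have f1 : a₁ j = e ↔ b₁ j = v := q1.2 (some j) none
        have f2 : a₂ i = e ↔ b₂ i = v := q2.2 (some i) none
        simp only [Sum.elim_inl, Sum.elim_inr]
        rw [eq_comm, mix3 (ha₁ j) (ha₂ i), eq_comm (a := b₂ i), mix3 (hb₁ j) (hb₂ i), f1, f2]
      · exact q2.2 (some i) (some j)
    · intro γ hγ k d _
      rw [BF_iff] at h1 h2
      obtain ⟨cin, hcin, hin⟩ := h1.2 γ hγ k (fun j => if s v (d j) then d j else v) (by
        intro j
        simp only [mem_setOf_eq]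
        split_ifs with h
        · exact h
        · exact hs.refl v)
      obtain ⟨cout, hcout, hout⟩ := h2.2 γ hγ k (fun j => if s v (d j) then v else d j) (by
        intro j
        simp only [mem_setOf_eq]
        split_ifs with h
        · exact fun _ => rfl
        · exact fun h' => absurd h' h)
      refine ⟨fun j => if s v (d j) then cin j else cout j, fun _ => mem_univ _, ?_⟩
      have hin' := hin.reindex (fun o : Option (ι ⊕ Fin k) =>
        o.elim (Sum.inl none) (Sum.elim (fun i => Sum.inl (some i)) Sum.inr))
      have hout' := hout.reindex (fun o : Option (κ ⊕ Fin k) =>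
        o.elim (Sum.inl none) (Sum.elim (fun i => Sum.inl (some i)) Sum.inr))
      have key := ih γ hγ B A s r hs hr v e (ι ⊕ Fin k) (κ ⊕ Fin k)
        (Sum.elim b₁ (fun j => if s v (d j) then d j else v)) (Sum.elim a₁ cin)
        (Sum.elim b₂ (fun j => if s v (d j) then v else d j)) (Sum.elim a₂ cout)
        (by
          rintro (i | j)
          · exact hb₁ i
          · simp only [Sum.elim_inr]
            split_ifs with h
            · exact h
            · exact hs.refl v)
        (by
          rintro (i | j)
          · exact ha₁ i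
          · exact hcin j)
        (by
          rintro (i | j)
          · exact hb₂ i
          · simp only [Sum.elim_inr]
            split_ifs with h
            · exact fun _ => rfl
            · exact fun h' => absurd h' h)
        (by
          rintro (i | j)
          · exact ha₂ i
          · exact hcout j)
        (by
          convert hin' using 1
          · funext o
            rcases o with _ | (i | j) <;> rfl
          · funext o
            rcases o with _ | (i | j) <;> rfl)
        (by
          convert hout' using 1
          · funext o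
            rcases o with _ | (i | j) <;> rfl
          · funext o
            rcases o with _ | (i | j) <;> rfl)
      have key2 := key.reindex (fun x : (ι ⊕ κ) ⊕ Fin k => Sum.elim
        (Sum.elim (fun i => Sum.inl (Sum.inl i)) (fun j => Sum.inr (Sum.inl j)))
        (fun l => if s v (d l) then Sum.inl (Sum.inr l) else Sum.inr (Sum.inr l)) x)
      convert key2 using 1
      · funext x
        rcases x with (i | j) | l
        · rfl
        · rfl
        · simp only [Sum.elim_inr, Function.comp_apply]
          by_cases h : s v (d l) <;> simp [h]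
      · funext x
        rcases x with (i | j) | l
        · rfl
        · rfl
        · simp only [Sum.elim_inr, Function.comp_apply]
          by_cases h : s v (d l) <;> simp [h]

theorem main : FV_stmt := ⟨fvcomb, fvsplit⟩


end Pool.Agent.W654.SR
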