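import Pool.Agent.W889.SR.Stm

set_option autoImplicit false

namespace Pool.Agent.W654.SR.Tr

open Pool.Agent.W889.SR Set Ordinal

variable {T : Type} {α : Ordinal.{0}}

/-- append elements and raise the level -/
noncomputable def app (t : Cond T α) {m : ℕ} (c : Fin m → T) (δ : Ordinal.{0}) (hδ : δ < α) :
    Cond T α :=
  ⟨t.n + m, Fin.append t.e c, max t.β δ, t.one_le.trans (le_max_left _ _), max_lt t.lt hδ⟩

theorem app_left (t : Cond T α) {m : ℕ} (c : Fin m → T) (δ : Ordinal.{0})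
    (hδ : δ < α) (i : Fin t.n) : (app t c δ hδ).e (Fin.castAdd m i) = t.e i :=
  Fin.append_left t.e c i

theorem app_right (t : Cond T α) {m : ℕ} (c : Fin m → T) (δ : Ordinal.{0})
    (hδ : δ < α) (i : Fin m) : (app t c δ hδ).e (Fin.natAdd t.n i) = c i :=
  Fin.append_right t.e c i

theorem app_ext (r : T → T → Prop) (t : Cond T α) {m : ℕ} (c : Fin m → T) (δ : Ordinal.{0})
    (hδ : δ < α) : Ext r (app t c δ hδ) t (Fin.castAdd m) := by
  refine ⟨le_max_left _ _, ?_⟩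
  have : (app t c δ hδ).e ∘ Fin.castAdd m = t.e := by
    funext i
    exact Fin.append_left _ _ _
  rw [this]
  exact BF.refl _ _ _ _

theorem dense_of (r : T → T → Prop) (W : Task T α)
    (h : ∀ (p t : Cond T α) (σ : Fin p.n → Fin t.n), ∃ (m : ℕ) (c : Fin m → T)
      (δ : Ordinal.{0}) (hδ : δ < α), W p (app t c δ hδ) (Fin.castAdd m ∘ σ)) : W.Dense r := by
  intro p t σ hσ
  obtain ⟨m, c, δ, hδ, hW⟩ := h p t σ
  refine ⟨app t c δ hδ, Fin.castAdd m ∘ σ, hW, Ext.trans (app_ext r t c δ hδ) hσ,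
    app t c δ hδ, Fin.castAdd m, id, app_ext r t c δ hδ, Ext.refl _ _, rfl⟩

theorem key (hK : K1) {r : T → T → Prop} (hα : 0 < α) {n : ℕ} (ψ : Fml n) (γ : Ordinal.{0})
    (hγ : γ < α) (hψ : ψ.Lv true γ) (a : Fin n → T) (ha : ψ.Realize r a) :
    ∃ (m : ℕ) (c : Fin m → T) (δ : Ordinal.{0}), δ < α ∧ ∀ (s : ℕ → ℕ → Prop)
      (f : Fin (n + m) → ℕ), BF δ r univ (Fin.append a c) s univ f →
        ψ.Realize s (f ∘ Fin.castAdd m) := by
  cases ψ with
  | qf φ =>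
    refine ⟨0, Fin.elim0, 0, hα, fun s f hf => ?_⟩
    have h1 := hf.reindex (Fin.castAdd 0)
    have e1 : Fin.append a (Fin.elim0 : Fin 0 → T) ∘ Fin.castAdd 0 = a := by
      funext i; exact Fin.append_left _ _ _
    rw [e1] at h1
    exact (hK 0 n (.qf φ) T ℕ r a s _ h1).1 (by simp [Fml.IsPi, Fml.Lv]) ha
  | disj k θ =>
    simp only [Fml.Lv] at hψ
    simp only [Fml.Realize] at ha
    obtain ⟨j, w, hw⟩ := ha
    obtain ⟨β, hβ, hlv⟩ := hψ j
    refine ⟨k j, w, β, hβ.trans hγ, fun s f hf => ?_⟩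
    have h1 := (hK β _ (θ j) T ℕ r _ s _ hf).1 hlv hw
    simp only [Fml.Realize]
    refine ⟨j, f ∘ Fin.natAdd n, ?_⟩
    have e1 : Fin.append (f ∘ Fin.castAdd (k j)) (f ∘ Fin.natAdd n) = f := by
      funext i
      refine Fin.addCases (fun i => ?_) (fun i => ?_) i
      · rw [Fin.append_left]; rfl
      · rw [Fin.append_right]; rfl
    rwa [e1]
  | conj k θ => simp [Fml.Lv] at hψ

/-- root task -/
def WR (o : T) : Task T α := fun _ q _ => ∃ i, q.e i = o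

/-- predecessors task -/
def WP (r : T → T → Prop) : Task T α := fun p q ρ =>
  ∀ (i : Fin p.n) y, r y (q.e (ρ i)) → ∃ j, q.e j = y

/-- task for a formula -/
def WF (r : T → T → Prop) {n : ℕ} (ψ : Fml n) (m : ℕ) : Task T α := fun p q ρ =>
  ∀ u : Fin n → Fin p.n, Encodable.encode u = m → ∃ (l : ℕ) (w : Fin l → Fin q.n)
    (δ : Ordinal.{0}), δ ≤ q.β ∧ ∀ (s : ℕ → ℕ → Prop)
      (f : Fin (n + l) → ℕ), BF δ r univ (Fin.append (q.e ∘ ρ ∘ u) (q.e ∘ w)) s univ f →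
        ψ.Realize s (f ∘ Fin.castAdd l)

theorem WR_dense (r : T → T → Prop) (hα : 0 < α) (o : T) : (WR (α := α) o).Dense r := by
  refine dense_of r _ fun p t σ => ⟨1, fun _ => o, 0, hα, Fin.natAdd t.n 0, ?_⟩
  exact app_right t (fun _ => o) 0 hα 0

theorem WP_dense (r : T → T → Prop) (hr : IsTree r) (hα : 0 < α) : (WP (α := α) r).Dense r := by
  refine dense_of r _ fun p t σ => ?_
  have hF : (⋃ i : Fin p.n, {y | r y (t.e (σ i))}).Finite :=
    Set.finite_iUnion fun i => hr.fin _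
  refine ⟨_, fun i => (hF.toFinset.equivFin.symm i).1, 0, hα, fun i y hy => ?_⟩
  have hy' : r y (t.e (σ i)) := by
    have := app_left t (fun i => (hF.toFinset.equivFin.symm i).1) 0 hα (σ i)
    rw [← this]
    exact hy
  have hmem : y ∈ hF.toFinset := by
    rw [Set.Finite.mem_toFinset, Set.mem_iUnion]
    exact ⟨i, hy'⟩
  refine ⟨Fin.natAdd t.n (hF.toFinset.equivFin ⟨y, hmem⟩), ?_⟩
  have := Fin.append_right t.e (fun i => (hF.toFinset.equivFin.symm i).1)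
    (hF.toFinset.equivFin ⟨y, hmem⟩)
  refine this.trans ?_
  simp

theorem WF_dense (hK : K1) (r : T → T → Prop) (hα : 0 < α) {n : ℕ} (ψ : Fml n) (γ : Ordinal.{0})
    (hγ : γ < α) (hψ : ψ.Lv true γ) (htr : ∀ a : Fin n → T, ψ.Realize r a) (m : ℕ) :
    (WF (α := α) r ψ m).Dense r := by
  refine dense_of r _ fun p t σ => ?_
  by_cases h : ∃ u : Fin n → Fin p.n, Encodable.encode u = m
  · obtain ⟨u, hu⟩ := h
    obtain ⟨l, c, δ, hδ, hc⟩ := key hK hα ψ γ hγ hψ (t.e ∘ σ ∘ u) (htr _)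
    refine ⟨l, c, δ, hδ, fun u' hu' => ?_⟩
    have huu : u' = u := Encodable.encode_injective (hu'.trans hu.symm)
    subst huu
    refine ⟨l, Fin.natAdd t.n, δ, le_max_right _ _, fun s f hf => hc s f ?_⟩
    have e1 : (app t c δ hδ).e ∘ (Fin.castAdd l ∘ σ) ∘ u' = t.e ∘ σ ∘ u' := by
      funext i; exact Fin.append_left _ _ _
    have e2 : (app t c δ hδ).e ∘ Fin.natAdd t.n = c := by
      funext i; exact Fin.append_right _ _ _
    rw [e1] at hf
    have e3 : Fin.append (t.e ∘ σ ∘ u') ((app t c δ hδ).e ∘ Fin.natAdd t.n) =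
      Fin.append (t.e ∘ σ ∘ u') c := congrArg _ e2
    rwa [e3] at hf
  · refine ⟨0, Fin.elim0, 0, hα, fun u hu => absurd ⟨u, hu⟩ h⟩

/-- the family of tasks -/
def fam (r : T → T → Prop) (o : T) (n : ℕ → ℕ) (ψ : (i : ℕ) → Fml (n i)) : ℕ → Task T α
  | 0 => WR o
  | 1 => WP r
  | i + 2 => WF r (ψ i.unpair.1) i.unpair.2

variable {r : T → T → Prop} {s : ℕ → ℕ → Prop} {W : ℕ → Task T α}

/-- the empty condition -/
def p0 (h : 1 < α) : Cond T α := ⟨0, Fin.elim0, 1, le_rfl, h⟩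

theorem tuple (h1 : 1 < α) (hG : Good r s W) {m : ℕ} (g : Fin m → ℕ) :
    ∃ a : Fin m → T, SameQf r a s g := by
  obtain ⟨q, ρ, κ, f', _, _, hR, _, hκ⟩ := hG.cov (p0 h1) Fin.elim0 (hG.base 1 le_rfl h1) m g 0
    (by exact lt_trans zero_lt_one h1)
  refine ⟨q.e ∘ κ, ?_⟩
  rw [← hκ]
  exact hR.sameQf.reindex κ

theorem root_of (h1 : 1 < α) (hG : Good r s W) (o : T) (ho : ∀ x, r o x) (i : ℕ)
    (hi : W i = WR o) : ∃ o, ∀ x, s o x := by
  have hM := hG.meets i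
  rw [hi] at hM
  obtain ⟨q, ρ, f', ⟨j, hj⟩, _, hR, _⟩ := hM (p0 h1) Fin.elim0 (hG.base 1 le_rfl h1)
  refine ⟨f' j, fun x => ?_⟩
  unfold Rl at hR
  rw [BF_iff] at hR
  obtain ⟨c, -, hc⟩ := hR.2 0 (lt_of_lt_of_le zero_lt_one q.one_le) 1 (fun _ => x)
    (fun _ => mem_univ _)
  refine (hc.sameQf.1 (Sum.inl j) (Sum.inr 0)).2 ?_
  show r (q.e j) (c 0)
  rw [hj]
  exact ho _

theorem fin_of (h1 : 1 < α) (hG : Good r s W) (i : ℕ) (hi : W i = WP r) (x : ℕ) :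
    {y | s y x}.Finite := by
  obtain ⟨q0, ρ0, κ, f0, _, _, hR0, _, hκ⟩ := hG.cov (p0 h1) Fin.elim0 (hG.base 1 le_rfl h1) 1
    (fun _ => x) 0 (by exact lt_trans zero_lt_one h1)
  have hM := hG.meets i
  rw [hi] at hM
  obtain ⟨q, ρ, f', hW, _, hR, hf⟩ := hM q0 f0 hR0
  have hx : f' (ρ (κ 0)) = x := by
    have e1 : f' (ρ (κ 0)) = f0 (κ 0) := congrFun hf (κ 0)
    have e2 : f0 (κ 0) = x := congrFun hκ 0
    rw [e1, e2]
  refine (Set.finite_range f').subset fun y hy => ?_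
  unfold Rl at hR
  rw [BF_iff] at hR
  obtain ⟨c, -, hc⟩ := hR.2 0 (lt_of_lt_of_le zero_lt_one q.one_le) 1 (fun _ => y)
    (fun _ => mem_univ _)
  have h2 : s y (f' (ρ (κ 0))) ↔ r (c 0) (q.e (ρ (κ 0))) :=
    hc.sameQf.1 (Sum.inr 0) (Sum.inl (ρ (κ 0)))
  have hy' : s y x := hy
  rw [← hx] at hy'
  obtain ⟨j, hj⟩ := hW (κ 0) (c 0) (h2.1 hy')
  refine ⟨j, ?_⟩
  exact (hc.sameQf.2 (Sum.inl j) (Sum.inr 0)).2 hj

theorem real_of (h1 : 1 < α) (hG : Good r s W) {n : ℕ} (ψ : Fml n)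
    (hi : ∀ m, ∃ i, W i = WF r ψ m) (g : Fin n → ℕ) : ψ.Realize s g := by
  obtain ⟨q0, ρ0, κ, f0, _, _, hR0, _, hκ⟩ := hG.cov (p0 h1) Fin.elim0 (hG.base 1 le_rfl h1) n
    g 0 (by exact lt_trans zero_lt_one h1)
  obtain ⟨i, hi⟩ := hi (Encodable.encode κ)
  have hM := hG.meets i
  rw [hi] at hM
  obtain ⟨q, ρ, f', hW, _, hR, hf⟩ := hM q0 f0 hR0
  obtain ⟨l, w, δ, hδ, hc⟩ := hW κ rfl
  have h2 := (BF.mono hδ hR).reindex (Fin.append (ρ ∘ κ) w)
  have e1 : q.e ∘ Fin.append (ρ ∘ κ) w = Fin.append (q.e ∘ ρ ∘ κ) (q.e ∘ w) := by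
    funext i
    refine Fin.addCases (fun i => ?_) (fun i => ?_) i
    · simp
    · simp
  rw [e1] at h2
  have h3 := hc s _ h2
  have e2 : (f' ∘ Fin.append (ρ ∘ κ) w) ∘ Fin.castAdd l = g := by
    rw [← hκ, ← hf]
    funext i
    simp
  rwa [e2] at h3

theorem main : TREE_stmt := by
  intro hK T _ α hα _ r hr φ hφ hsat
  have h1 : (1 : Ordinal) < α := lt_of_lt_of_le one_lt_two hα
  have h0 : (0 : Ordinal) < α := lt_trans zero_lt_one h1
  obtain ⟨o, ho⟩ := hr.root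
  have hIs : ∀ (W : ℕ → Task T α) (s : ℕ → ℕ → Prop), W 0 = WR o → W 1 = WP r → Good r s W →
      IsTree s := by
    intro W s hW0 hW1 hG
    refine ⟨fun x => ?_, fun x y => ?_, fun x y z => ?_, root_of h1 hG o ho 0 hW0,
      fin_of h1 hG 1 hW1, fun x y z => ?_⟩
    · obtain ⟨a, ha⟩ := tuple h1 hG ![x]
      exact (ha.1 0 0).1 (hr.refl _)
    · obtain ⟨a, ha⟩ := tuple h1 hG ![x, y]
      intro hxy hyx
      exact (ha.2 0 1).1 (hr.antisymm _ _ ((ha.1 0 1).2 hxy) ((ha.1 1 0).2 hyx))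
    · obtain ⟨a, ha⟩ := tuple h1 hG ![x, y, z]
      intro hxy hyz
      exact (ha.1 0 2).1 (hr.trans _ _ _ ((ha.1 0 1).2 hxy) ((ha.1 1 2).2 hyz))
    · obtain ⟨a, ha⟩ := tuple h1 hG ![x, y, z]
      intro hyx hzx
      rcases hr.chain _ _ _ ((ha.1 1 0).2 hyx) ((ha.1 2 0).2 hzx) with h | h
      · exact Or.inl ((ha.1 1 2).1 h)
      · exact Or.inr ((ha.1 2 1).1 h)
  cases φ with
  | qf χ =>
    refine ⟨fun i => if i = 0 then WR o else WP r, fun i => ?_, fun s hG => ⟨?_, ?_⟩⟩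
    · dsimp only
      split_ifs
      · exact WR_dense r h0 o
      · exact WP_dense r hr h0
    · exact hIs _ s (by simp) (by simp) hG
    · exact (hK 0 0 (.qf χ) T ℕ r _ s _ ((hG.base 1 le_rfl h1).mono zero_le_one)).1
        (by simp [Fml.IsPi, Fml.Lv]) hsat
  | disj k θ => simp [Fml.IsPi, Fml.Lv] at hφ
  | conj k ψ =>
    simp only [Fml.IsPi, Fml.Lv] at hφ
    simp only [Sat, Fml.Realize] at hsat
    have happ : ∀ (A : Type) (n : ℕ) (a : Fin (0 + n) → A),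
        Fin.append (Fin.elim0 : Fin 0 → A) (a ∘ Fin.natAdd 0) = a := by
      intro A n a
      funext i
      refine Fin.addCases (fun i => i.elim0) (fun i => ?_) i
      rw [Fin.append_right]; rfl
    refine ⟨fam r o (fun i => 0 + k i) ψ, fun i => ?_, fun s hG => ⟨?_, ?_⟩⟩
    · match i with
      | 0 => exact WR_dense r h0 o
      | 1 => exact WP_dense r hr h0
      | i + 2 =>
        obtain ⟨γ, hγ, hlv⟩ := hφ i.unpair.1
        refine WF_dense hK r h0 (ψ i.unpair.1) γ hγ hlv (fun a => ?_) _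
        have := hsat i.unpair.1 (a ∘ Fin.natAdd 0)
        rwa [happ] at this
    · exact hIs _ s rfl rfl hG
    · simp only [Sat, Fml.Realize]
      intro i w
      refine real_of h1 hG (ψ i) (fun m => ⟨Nat.pair i m + 2, ?_⟩) _
      show WF r (ψ (Nat.pair i m).unpair.1) (Nat.pair i m).unpair.2 = WF r (ψ i) m
      rw [Nat.unpair_pair]


end Pool.Agent.W654.SR.Tr
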